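import Pool.Agent.SHA.Stmts

/-!
LOC: the lower bound for `s ≥ 34`.
-/

set_option autoImplicit false

namespace Pool.Agent.SHA.H99

open Pool.Agent.Helper18_Helly Pool.Agent.SHA

universe u

open Classical in
theorem loc (hLO1 : LO1Stmt.{u}) (hLO2 : LO2Stmt.{u}) (hTRV : TRVStmt.{u}) (hNM1 : NM1Stmt)
    (hNM2 : NM2Stmt) (hBAS : BASStmt) : LOCStmt.{u} := by
  intro U X s S₁ S₂ Q hs34 h1 h2 hS1 hS2 hQ hO
  have hs1 : 1 ≤ s := by omega
  obtain ⟨b1, b2, b3, -⟩ := hBAS s (S₁.card : ℕ∞) (S₂.card : ℕ∞) hs1 (by exact_mod_cast h1)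
    (by exact_mod_cast h2)
  have b4 := b3 S₁.card rfl
  have hs34r : (34 : ℝ) ≤ s := by exact_mod_cast hs34
  have hsq : (5.75 : ℝ) ≤ √(s : ℝ) := by
    apply Real.le_sqrt_of_sq_le
    norm_num
    linarith
  have hlead : lead s (S₁.card : ℕ∞) (S₂.card : ℕ∞) =
      s * (1 + theta s (S₁.card : ℕ∞) (S₂.card : ℕ∞)) := rfl
  -- the set `S₁`
  have hself : (∀ O ∈ Q, (S₁.filter (fun f => f ∈ O)).card ≤ s) →
      ∃ T : Finset U, (T : Set U) ⊆ X ∧ (∀ O ∈ Q, (T.filter (fun f => f ∈ O)).card ≤ s) ∧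
      lead s (S₁.card : ℕ∞) (S₂.card : ℕ∞) - 4 * √(s : ℝ) ≤ (T.card : ℝ) := by
    intro h
    exact ⟨S₁, hS1, h, by linarith⟩
  by_cases hprod : S₁.card * S₂.card ≤ s ^ 2
  · have h3 : S₁.card ≤ s := by
      by_contra hc
      push Not at hc
      have h4 : (s + 1) * s ≤ S₁.card * S₂.card := Nat.mul_le_mul hc h2
      nlinarith
    exact hself fun O _ => (Finset.card_filter_le _ _).trans h3
  push Not at hprod
  rcases hTRV U X s Q hs1 hQ with ⟨T, hT1, hT2, hT3⟩ | hall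
  swap
  · exact hself (hall S₁ hS1)
  by_cases hbig : lead s (S₁.card : ℕ∞) (S₂.card : ℕ∞) - 4 * √(s : ℝ) ≤ (T.card : ℝ)
  · exact ⟨T, hT1, hT3, hbig⟩
  push Not at hbig
  rw [hT2] at hbig
  have hsub : ((s - 1 : ℕ) : ℝ) = (s : ℝ) - 1 := by
    rw [Nat.cast_sub hs1, Nat.cast_one]
  rw [Nat.cast_add, hsub] at hbig
  obtain ⟨k, hk⟩ : ∃ k, k = Q.card := ⟨_, rfl⟩
  rw [← hk] at hbig
  generalize hθ : theta s (S₁.card : ℕ∞) (S₂.card : ℕ∞) = θ at *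
  generalize hL : lead s (S₁.card : ℕ∞) (S₂.card : ℕ∞) = L at *
  have hsθ : (s : ℝ) * θ ≤ s := by
    have := mul_le_mul_of_nonneg_left b2 (by linarith : (0 : ℝ) ≤ s)
    linarith
  have hk1 : (k : ℝ) - 1 < s * θ - 4 * √(s : ℝ) := by
    rw [hlead] at hbig
    linarith
  have hks : k ≤ s := by
    have : (k : ℝ) < s := by linarith
    exact_mod_cast this.le
  rcases le_or_gt k 22 with hk22 | hk22
  · obtain ⟨T', hT1', hT2', hT3'⟩ := hLO1 U X s S₁ S₂ Q hs1 h1 h2 hprod hS1 hS2 hQ hO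
    refine ⟨T', hT1', hT2', ?_⟩
    rw [hθ, hL, ← hk] at hT3'
    have hk22r : (k : ℝ) ≤ 22 := by exact_mod_cast hk22
    have hle : (1 + θ) + (1 - θ) * k ≤ 23 := by
      have h5 : (1 - θ) * k ≤ (1 - θ) * 22 := mul_le_mul_of_nonneg_left hk22r (by linarith)
      linarith
    linarith
  · have hk23 : 23 ≤ k := hk22
    have hk0 : (0 : ℝ) ≤ k := Nat.cast_nonneg k
    have hy3 : ((k : ℝ) ^ ((1 : ℝ) / 3)) ^ 3 = k := by
      rw [← Real.rpow_natCast, ← Real.rpow_mul hk0]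
      norm_num
    have hy1 : 1 ≤ (k : ℝ) ^ ((1 : ℝ) / 3) := by
      apply Real.one_le_rpow
      · exact_mod_cast (by omega : 1 ≤ k)
      · norm_num
    obtain ⟨y, hy⟩ : ∃ y, y = (k : ℝ) ^ ((1 : ℝ) / 3) := ⟨_, rfl⟩
    rw [← hy] at hy3 hy1
    have hy0 : 0 ≤ y := by linarith
    have h6 := hNM2.1 s y hs34 hy0 (by rw [hy3]; exact_mod_cast hks)
    have hdiv : ((k : ℝ) - 1) / s ≤ θ := by
      rw [div_le_iff₀ (by linarith)]
      have : (0 : ℝ) ≤ √(s : ℝ) := Real.sqrt_nonneg _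
      linarith
    have h7 := hNM2.2 s k y θ hs34 hk23 hy0 hy3 hdiv
    obtain ⟨T', hT1', hT2', hT3'⟩ := hLO2 U X s S₁ S₂ Q y hs1 h1 h2 hprod hS1 hS2 hQ hO hy1
      (by rw [hy3, hk]) h6
    refine ⟨T', hT1', hT2', ?_⟩
    rw [hθ, hL, ← hk] at hT3'
    have h8 := hNM1 y hy0
    linarith

end Pool.Agent.SHA.H99
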